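import Mathlib
import Pool.Agent.N741.HB.Stm2

/-!
# HB/19: few abc triples (helper415)
-/

set_option autoImplicit false

namespace Pool.Agent.N415.HB

open MvPolynomial Pool.Agent.N741.HB

/-- the data of a triple -/
structure Dt (N E R R1 : ℕ) (δ1 : ℝ) (Y : ℕ) (u : Fin 2 → ℤ) (m : ℕ × ℕ × ℕ) (A : Fin 2 → ℕ)
    (s1 s2 s3 z r : ℕ) : Prop where
  h1 : m.1 = s1 * A 0
  h2 : m.2.1 = s2 * A 1
  h3 : m.2.2 = s3 * z ^ r
  b1 : s1 ≤ Y ^ (E + N * R1)
  b2 : s2 ≤ Y ^ (E + N * R1)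
  b3 : s3 ≤ Y ^ E
  hr : R ≤ r
  lh : LhPt 2 N E R1 δ1 Y u 1 A

/-- the triples of one type -/
structure Tp (N E R : ℕ) (δ : ℝ) (Y : ℕ) (u : Fin 2 → ℤ) (m : ℕ × ℕ × ℕ) : Prop where
  p1 : 0 < m.1
  p2 : 0 < m.2.1
  p3 : 0 < m.2.2
  c12 : Nat.Coprime m.1 m.2.1
  c13 : Nat.Coprime m.1 m.2.2
  eq : u 0 * m.1 + u 1 * m.2.1 = m.2.2
  l1 : (m.1 : ℝ) ≤ Real.exp ((Y : ℝ) ^ δ)
  l2 : (m.2.1 : ℝ) ≤ Real.exp ((Y : ℝ) ^ δ)
  l3 : (m.2.2 : ℝ) ≤ Real.exp ((Y : ℝ) ^ δ)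
  lop : Lop N E R Y m.1 m.2.1 m.2.2

lemma part_le {N R1 Y : ℕ} (hY : 1 ≤ Y) (x e : Fin N → ℕ) (hx : ∀ j, 1 ≤ x j ∧ x j ≤ Y) :
    (∏ j, if R1 ≤ e j then 1 else x j ^ e j) ≤ Y ^ (N * R1) := by
  calc (∏ j, if R1 ≤ e j then 1 else x j ^ e j) ≤ ∏ _j : Fin N, Y ^ R1 := by
        refine Finset.prod_le_prod' fun j _ => ?_
        split_ifs with h
        · exact Nat.one_le_pow _ _ hY
        · exact (Nat.pow_le_pow_left (hx j).2 _).trans (Nat.pow_le_pow_right hY (by omega))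
    _ = Y ^ (N * R1) := by
        rw [Finset.prod_const, Finset.card_univ, Fintype.card_fin, ← pow_mul, mul_comm]

lemma part_mul {N R1 : ℕ} (x e : Fin N → ℕ) :
    (∏ j, if R1 ≤ e j then 1 else x j ^ e j) * (∏ j, if R1 ≤ e j then x j ^ e j else 1) =
      ∏ j, x j ^ e j := by
  rw [← Finset.prod_mul_distrib]
  refine Finset.prod_congr rfl fun j _ => ?_
  split_ifs
  · rw [one_mul]
  · rw [mul_one]

lemma exp_mono {Y : ℕ} (hY : 1 ≤ Y) {δ δ' : ℝ} (h : δ ≤ δ') :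
    Real.exp ((Y : ℝ) ^ δ) ≤ Real.exp ((Y : ℝ) ^ δ') :=
  Real.exp_le_exp.2 (Real.rpow_le_rpow_of_exponent_le (by exact_mod_cast hY) h)

lemma dt_of {N E R R1 : ℕ} {δ δ1 : ℝ} {Y : ℕ} {u : Fin 2 → ℤ} {m : ℕ × ℕ × ℕ} (hY : 1 ≤ Y)
    (hδ : δ ≤ δ1) (hR1 : 1 ≤ R) (hR : R1 ≤ R) (hu : ∀ i, u i ≠ 0) (h : Tp N E R δ Y u m) :
    ∃ (A : Fin 2 → ℕ) (s1 s2 s3 z r : ℕ), Dt N E R R1 δ1 Y u m A s1 s2 s3 z r := by
  obtain ⟨x, e₁, e₂, s₁, s₂, s₃, z, r, hx, b1, b2, b3, hr, h1, h2, h3⟩ := h.lop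
  have hexp := exp_mono hY hδ
  refine ⟨fun i => ∏ j, if R1 ≤ (![e₁, e₂] i) j then x j ^ (![e₁, e₂] i) j else 1,
    s₁ * (∏ j, if R1 ≤ e₁ j then 1 else x j ^ e₁ j),
    s₂ * (∏ j, if R1 ≤ e₂ j then 1 else x j ^ e₂ j), s₃, z, r, ?_, ?_, h3, ?_, ?_, b3, hr, ?_⟩
  · rw [mul_assoc]
    show m.1 = s₁ * ((∏ j, if R1 ≤ e₁ j then 1 else x j ^ e₁ j) *
      (∏ j, if R1 ≤ e₁ j then x j ^ e₁ j else 1))
    rw [part_mul, h1]
  · rw [mul_assoc]
    show m.2.1 = s₂ * ((∏ j, if R1 ≤ e₂ j then 1 else x j ^ e₂ j) *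
      (∏ j, if R1 ≤ e₂ j then x j ^ e₂ j else 1))
    rw [part_mul, h2]
  · rw [pow_add]
    exact Nat.mul_le_mul b1 (part_le hY x e₁ hx)
  · rw [pow_add]
    exact Nat.mul_le_mul b2 (part_le hY x e₂ hx)
  · have hp3 := h.p3
    have hs3 : 0 < s₃ := by
      rw [h3] at hp3
      exact Nat.pos_of_mul_pos_right hp3
    have hr0 : r ≠ 0 := by omega
    have hz : z ≤ m.2.2 := by
      rw [h3]
      calc z ≤ z ^ r := Nat.le_self_pow hr0 z
        _ ≤ s₃ * z ^ r := Nat.le_mul_of_pos_left _ hs3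
    have e0 : ∀ i : Fin 2, i = 0 ∨ i = 1 := by
      intro i
      fin_cases i
      · exact Or.inl rfl
      · exact Or.inr rfl
    have hm1 : (m.1 : ℤ) ≠ 0 := by exact_mod_cast h.p1.ne'
    have hm2 : (m.2.1 : ℤ) ≠ 0 := by exact_mod_cast h.p2.ne'
    have hm3 : (m.2.2 : ℤ) ≠ 0 := by exact_mod_cast h.p3.ne'
    refine ⟨![(m.1 : ℤ), (m.2.1 : ℤ)], ![(s₁ : ℤ), (s₂ : ℤ)], x, ![e₁, e₂], (s₃ : ℤ), fun _ => 0,
      (z : ℤ), r, ?_, ?_, ?_, hx, ?_, ?_, ?_, fun i => rfl, ?_, hR.trans hr, ?_, ?_⟩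
    · intro d hd
      have d1' : (d : ℤ) ∣ (m.1 : ℤ) := hd 0
      have d2' : (d : ℤ) ∣ (m.2.1 : ℤ) := hd 1
      have d1 : d ∣ m.1 := by exact_mod_cast d1'
      have d2 : d ∣ m.2.1 := by exact_mod_cast d2'
      exact Nat.eq_one_of_dvd_coprimes h.c12 d1 d2
    · intro J hJ
      by_cases j0 : (0 : Fin 2) ∈ J
      · by_cases j1 : (1 : Fin 2) ∈ J
        · have hJu : J = Finset.univ := by
            ext i
            rcases e0 i with rfl | rfl
            · simp [j0]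
            · simp [j1]
          rw [hJu, Fin.sum_univ_two]
          show u 0 * (m.1 : ℤ) + u 1 * (m.2.1 : ℤ) ≠ 0
          rw [h.eq]
          exact hm3
        · have hJu : J = {0} := by
            ext i
            rcases e0 i with rfl | rfl
            · simp [j0]
            · simp [j1]
          rw [hJu, Finset.sum_singleton]
          exact mul_ne_zero (hu 0) hm1
      · have hJu : J = {1} := by
          obtain ⟨i, hi⟩ := hJ
          have hi1 : i = 1 := by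
            rcases e0 i with rfl | rfl
            · exact absurd hi j0
            · rfl
          subst hi1
          ext k
          rcases e0 k with rfl | rfl
          · simp [j0]
          · simp [hi]
        rw [hJu, Finset.sum_singleton]
        exact mul_ne_zero (hu 1) hm2
    · intro i
      rcases e0 i with rfl | rfl
      · show ((|(m.1 : ℤ)| : ℤ) : ℝ) ≤ _
        rw [Nat.abs_cast]
        exact_mod_cast h.l1.trans hexp
      · show ((|(m.2.1 : ℤ)| : ℤ) : ℝ) ≤ _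
        rw [Nat.abs_cast]
        exact_mod_cast h.l2.trans hexp
    · intro i
      rcases e0 i with rfl | rfl
      · show |(s₁ : ℤ)| ≤ _
        rw [Nat.abs_cast]
        exact_mod_cast b1
      · show |(s₂ : ℤ)| ≤ _
        rw [Nat.abs_cast]
        exact_mod_cast b2
    · rw [Nat.abs_cast]
      exact_mod_cast b3
    · intro i
      rcases e0 i with rfl | rfl
      · show (m.1 : ℤ) = (s₁ : ℤ) * ∏ j, (x j : ℤ) ^ e₁ j
        exact_mod_cast h1
      · show (m.2.1 : ℤ) = (s₂ : ℤ) * ∏ j, (x j : ℤ) ^ e₂ j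
        exact_mod_cast h2
    · simp only [pow_zero, Finset.prod_const_one]
      exact Real.one_le_exp (by positivity)
    · rw [Nat.abs_cast]
      refine le_trans ?_ (h.l3.trans hexp)
      exact_mod_cast hz
    · rw [Fin.sum_univ_two]
      show u 0 * (m.1 : ℤ) + u 1 * (m.2.1 : ℤ) = _
      rw [h.eq, h3]
      simp

/-- two coprime pairs with the same ratio -/
lemma ratio_eq {a b c d : ℕ} (h : Nat.Coprime a b) (h' : Nat.Coprime c d) (ha : 0 < a) (hc : 0 < c)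
    (he : a * d = c * b) : a = c ∧ b = d := by
  have h1 : a ∣ c := h.dvd_of_dvd_mul_right (he ▸ Dvd.intro d rfl)
  have h2 : c ∣ a := h'.dvd_of_dvd_mul_right (he ▸ Dvd.intro b rfl)
  have h3 : a = c := Nat.dvd_antisymm h1 h2
  subst h3
  exact ⟨rfl, (Nat.eq_of_mul_eq_mul_left ha he).symm⟩

/-- big triples with the same `A` and the same power -/
lemma big_eq {N E R R1 : ℕ} {δ δ1 : ℝ} {Y : ℕ} {u : Fin 2 → ℤ} (hu0 : |u 0| = 1)
    {m m' : ℕ × ℕ × ℕ} {A : Fin 2 → ℕ} {s1 s2 s3 z r s1' s2' s3' z' r' : ℕ}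
    (h : Tp N E R δ Y u m) (h' : Tp N E R δ Y u m') (hd : Dt N E R R1 δ1 Y u m A s1 s2 s3 z r)
    (hd' : Dt N E R R1 δ1 Y u m' A s1' s2' s3' z' r') (hw : z ^ r = z' ^ r')
    (hb : Y ^ (2 * (E + N * R1)) < z ^ r) : m = m' := by
  obtain ⟨q1, q2, q3, c1, c2, -, -, -⟩ := hd
  obtain ⟨q1', q2', q3', c1', c2', -, -, -⟩ := hd'
  have p1 := h.p1
  have p2 := h.p2
  have p1' := h'.p1
  have p2' := h'.p2
  have e1 := h.eq
  have e2 := h'.eq
  have k12 := h.c12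
  have k13 := h.c13
  have k12' := h'.c12
  rw [q1] at p1 k12 k13
  rw [q2] at p2 k12
  rw [q1'] at p1' k12'
  rw [q2'] at p2' k12'
  rw [q3] at k13
  rw [q1, q2, q3] at e1
  rw [q1', q2', q3', ← hw] at e2
  set w := z ^ r with hwdef
  have hA0 : 0 < A 0 := Nat.pos_of_mul_pos_left p1
  have hs1 : 0 < s1 := Nat.pos_of_mul_pos_right p1
  have hs2 : 0 < s2 := Nat.pos_of_mul_pos_right p2
  have hs1' : 0 < s1' := Nat.pos_of_mul_pos_right p1'
  have hs2' : 0 < s2' := Nat.pos_of_mul_pos_right p2'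
  push_cast at e1 e2
  -- the identity
  have key : u 0 * (A 0 : ℤ) * ((s1 : ℤ) * s2' - s1' * s2) = w * ((s3 : ℤ) * s2' - s3' * s2) := by
    linear_combination (s2' : ℤ) * e1 - (s2 : ℤ) * e2
  have hcop : IsCoprime (w : ℤ) (A 0 : ℤ) := by
    rw [Nat.isCoprime_iff_coprime]
    exact (Nat.Coprime.coprime_mul_left_right (Nat.Coprime.coprime_mul_left k13)).symm
  have hdiv : (w : ℤ) ∣ (s1 : ℤ) * s2' - s1' * s2 := by
    have h3 : (w : ℤ) ∣ (A 0 : ℤ) * ((s1 : ℤ) * s2' - s1' * s2) := by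
      have h4 : (w : ℤ) ∣ u 0 * ((A 0 : ℤ) * ((s1 : ℤ) * s2' - s1' * s2)) :=
        ⟨_, by rw [← mul_assoc]; exact key⟩
      rcases (abs_eq (by norm_num : (0 : ℤ) ≤ 1)).1 hu0 with h5 | h5
      · rwa [h5, one_mul] at h4
      · rw [h5, neg_one_mul, dvd_neg] at h4
        exact h4
    exact hcop.dvd_of_dvd_mul_left h3
  have hsmall : |(s1 : ℤ) * s2' - s1' * s2| < w := by
    have h6 : s1 * s2' ≤ Y ^ (2 * (E + N * R1)) := by
      rw [two_mul, pow_add]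
      exact Nat.mul_le_mul c1 c2'
    have h7 : s1' * s2 ≤ Y ^ (2 * (E + N * R1)) := by
      rw [two_mul, pow_add]
      exact Nat.mul_le_mul c1' c2
    have h8 : ((s1 * s2' : ℕ) : ℤ) ≤ ((Y ^ (2 * (E + N * R1)) : ℕ) : ℤ) := by exact_mod_cast h6
    have h9 : ((s1' * s2 : ℕ) : ℤ) ≤ ((Y ^ (2 * (E + N * R1)) : ℕ) : ℤ) := by exact_mod_cast h7
    have h10 : ((Y ^ (2 * (E + N * R1)) : ℕ) : ℤ) < (w : ℤ) := by exact_mod_cast hb
    have h11 : (0 : ℤ) ≤ ((s1 * s2' : ℕ) : ℤ) := Int.natCast_nonneg _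
    have h12 : (0 : ℤ) ≤ ((s1' * s2 : ℕ) : ℤ) := Int.natCast_nonneg _
    push_cast at h8 h9 h11 h12 h10 ⊢
    rw [abs_lt]
    constructor <;> linarith
  have hzero := Int.eq_zero_of_abs_lt_dvd hdiv hsmall
  have hz' : s1 * s2' = s1' * s2 := by
    have : (s1 : ℤ) * s2' = s1' * s2 := by linarith
    exact_mod_cast this
  have f1 : Nat.Coprime s1 s2 := (Nat.Coprime.coprime_mul_right_right
    (Nat.Coprime.coprime_mul_right k12))
  have f2 : Nat.Coprime s1' s2' := (Nat.Coprime.coprime_mul_right_right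
    (Nat.Coprime.coprime_mul_right k12'))
  obtain ⟨g1, g2⟩ := ratio_eq f1 f2 hs1 hs1' hz'
  have m1 : m.1 = m'.1 := by rw [q1, q1', g1]
  have m2 : m.2.1 = m'.2.1 := by rw [q2, q2', g2]
  have m3 : (m.2.2 : ℤ) = m'.2.2 := by rw [← h.eq, ← h'.eq, m1, m2]
  exact Prod.ext m1 (Prod.ext m2 (by exact_mod_cast m3))

/-- small triples with the same `A` -/
lemma small_eq {N E R R1 : ℕ} {δ δ1 : ℝ} {Y K : ℕ} {u : Fin 2 → ℤ} (hu0 : u 0 = -1) (hu1 : u 1 = 1)
    {m m' : ℕ × ℕ × ℕ} {A : Fin 2 → ℕ} {s1 s2 s3 z r s1' s2' s3' z' r' : ℕ}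
    (h : Tp N E R δ Y u m) (h' : Tp N E R δ Y u m') (hd : Dt N E R R1 δ1 Y u m A s1 s2 s3 z r)
    (hd' : Dt N E R R1 δ1 Y u m' A s1' s2' s3' z' r') (hm : m.2.2 ≤ Y ^ K) (hm' : m'.2.2 ≤ Y ^ K)
    (hb : Y ^ (K + 2 * (E + N * R1)) ≤ m.1) : m = m' := by
  obtain ⟨q1, q2, q3, c1, c2, -, -, -⟩ := hd
  obtain ⟨q1', q2', q3', c1', c2', -, -, -⟩ := hd'
  have p1 := h.p1
  have p2 := h.p2
  have p1' := h'.p1
  have p2' := h'.p2
  have p3 := h.p3
  have p3' := h'.p3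
  have e1 := h.eq
  have e2 := h'.eq
  have k12 := h.c12
  have k12' := h'.c12
  rw [q1] at p1 k12 hb
  rw [q2] at p2 k12
  rw [q1'] at p1' k12'
  rw [q2'] at p2' k12'
  rw [q1, q2] at e1
  rw [q1', q2'] at e2
  have hA0 : 0 < A 0 := Nat.pos_of_mul_pos_left p1
  have hs1 : 0 < s1 := Nat.pos_of_mul_pos_right p1
  have hs2 : 0 < s2 := Nat.pos_of_mul_pos_right p2
  have hs1' : 0 < s1' := Nat.pos_of_mul_pos_right p1'
  have hs2' : 0 < s2' := Nat.pos_of_mul_pos_right p2'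
  push_cast at e1 e2
  rw [hu0, hu1] at e1 e2
  set M := m.2.2 with hM
  set M' := m'.2.2 with hM'
  have key : (A 0 : ℤ) * ((s1' : ℤ) * s2 - s1 * s2') = M * s2' - M' * s2 := by
    linear_combination (s2' : ℤ) * e1 - (s2 : ℤ) * e2
  -- the size of `A 0`
  have hAbig : Y ^ (K + (E + N * R1)) ≤ A 0 := by
    have h1 : Y ^ (K + (E + N * R1)) * Y ^ (E + N * R1) ≤ A 0 * Y ^ (E + N * R1) := by
      calc Y ^ (K + (E + N * R1)) * Y ^ (E + N * R1) = Y ^ (K + 2 * (E + N * R1)) := by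
            rw [← pow_add]; congr 1; ring
        _ ≤ s1 * A 0 := hb
        _ ≤ Y ^ (E + N * R1) * A 0 := Nat.mul_le_mul_right _ c1
        _ = _ := mul_comm _ _
    have hYpos : 0 < Y ^ (E + N * R1) := lt_of_lt_of_le hs1 c1
    exact Nat.le_of_mul_le_mul_right h1 hYpos
  have hzero : (s1' : ℤ) * s2 - s1 * s2' = 0 := by
    by_contra hne
    have h2 : (1 : ℤ) ≤ |(s1' : ℤ) * s2 - s1 * s2'| := Int.one_le_abs hne
    have h3 : (A 0 : ℤ) ≤ |(M : ℤ) * s2' - M' * s2| := by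
      rw [← key, abs_mul, Nat.abs_cast]
      exact le_mul_of_one_le_right (Int.natCast_nonneg _) h2
    have h4 : M * s2' ≤ Y ^ (K + (E + N * R1)) := by
      rw [pow_add]
      exact Nat.mul_le_mul hm c2'
    have h5 : M' * s2 ≤ Y ^ (K + (E + N * R1)) := by
      rw [pow_add]
      exact Nat.mul_le_mul hm' c2
    have h6 : 0 < M * s2' := Nat.mul_pos p3 hs2'
    have h7 : 0 < M' * s2 := Nat.mul_pos p3' hs2
    have h4' : ((M * s2' : ℕ) : ℤ) ≤ (A 0 : ℤ) := by exact_mod_cast h4.trans hAbig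
    have h5' : ((M' * s2 : ℕ) : ℤ) ≤ (A 0 : ℤ) := by exact_mod_cast h5.trans hAbig
    have h6' : (0 : ℤ) < ((M * s2' : ℕ) : ℤ) := by exact_mod_cast h6
    have h7' : (0 : ℤ) < ((M' * s2 : ℕ) : ℤ) := by exact_mod_cast h7
    push_cast at h4' h5' h6' h7'
    rcases abs_cases ((M : ℤ) * s2' - M' * s2) with ⟨h8, -⟩ | ⟨h8, -⟩ <;> rw [h8] at h3 <;> linarith
  have hz' : s1 * s2' = s1' * s2 := by
    have : (s1 : ℤ) * s2' = s1' * s2 := by linarith
    exact_mod_cast this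
  have f1 : Nat.Coprime s1 s2 := (Nat.Coprime.coprime_mul_right_right
    (Nat.Coprime.coprime_mul_right k12))
  have f2 : Nat.Coprime s1' s2' := (Nat.Coprime.coprime_mul_right_right
    (Nat.Coprime.coprime_mul_right k12'))
  obtain ⟨g1, g2⟩ := ratio_eq f1 f2 hs1 hs1' hz'
  have m1 : m.1 = m'.1 := by rw [q1, q1', g1]
  have m2 : m.2.1 = m'.2.1 := by rw [q2, q2', g2]
  have m3 : (m.2.2 : ℤ) = m'.2.2 := by rw [← h.eq, ← h'.eq, m1, m2]
  exact Prod.ext m1 (Prod.ext m2 (by exact_mod_cast m3))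

/-- the count for one type -/
lemma count_tp {N E R R1 R2 : ℕ} {δ δ1 δ2 ε1 ε2 : ℝ} {Y : ℕ} (hY : 2 ≤ Y) {u : Fin 2 → ℤ}
    (hu : (u 0 = 1 ∨ u 0 = -1) ∧ u 1 = 1) (hδ1 : δ ≤ δ1) (hδ2 : δ ≤ δ2) (hδ2' : 0 < δ2)
    (hR1 : R1 ≤ R) (hR2 : R2 ≤ R)
    (hR : (2 * (E + N * R1) + E) + 2 * (E + N * R1) + 1 ≤ R)
    (hlp : ∀ T : Finset (Fin 2 → ℕ), (∀ A ∈ T, LhPt 2 N E R1 δ1 Y u 1 A) →
      (T.card : ℝ) ≤ (Y : ℝ) ^ ε1)
    (hpv : ∀ (D : ℕ) (F : MvPolynomial (Fin 2) ℤ), 1 ≤ D →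
      (D : ℝ) ≤ ((Y ^ (E + N * R1 + 1) : ℕ) : ℝ) ^ δ2 → F.totalDegree ≤ D →
      (∀ m, ((|F.coeff m| : ℤ) : ℝ) ≤ Real.exp (((Y ^ (E + N * R1 + 1) : ℕ) : ℝ) ^ δ2)) →
      ∀ T : Finset ℤ, (∀ w ∈ T, ∃ (x : Fin 2 → ℤ) (s z : ℤ) (r : ℕ),
        (∀ j, |x j| ≤ ((Y ^ (E + N * R1 + 1) : ℕ) : ℤ)) ∧ s ≠ 0 ∧
        |s| ≤ ((Y ^ (E + N * R1 + 1) : ℕ) : ℤ) ^ 1 ∧ 2 ≤ |z| ∧ R2 * D ≤ r ∧ w = z ^ r ∧
        eval x F = s * w) → (T.card : ℝ) ≤ ((Y ^ (E + N * R1 + 1) : ℕ) : ℝ) ^ ε2)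
    (T : Finset (ℕ × ℕ × ℕ))
    (hT : ∀ m ∈ T, Tp N E R δ Y u m ∧ (Y ^ R ≤ m.2.1 ∨ (u 0 = 1 ∧ Y ^ R ≤ m.2.2))) :
    (T.card : ℝ) ≤ (Y : ℝ) ^ ε1 * (1 + ((Y ^ (E + N * R1 + 1) : ℕ) : ℝ) ^ ε2) := by
  classical
  have hY1 : 1 ≤ Y := by omega
  have hu0 : ∀ i, u i ≠ 0 := by
    intro i
    fin_cases i
    · show u 0 ≠ 0
      rcases hu.1 with h | h <;> rw [h] <;> norm_num
    · show u 1 ≠ 0
      rw [hu.2]; norm_num
  have hab : |u 0| = 1 := by rcases hu.1 with h | h <;> rw [h] <;> norm_num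
  have hex : ∀ m : ℕ × ℕ × ℕ, ∃ (A : Fin 2 → ℕ) (s1 s2 s3 z r : ℕ), m ∈ T →
      Dt N E R R1 δ1 Y u m A s1 s2 s3 z r := by
    intro m
    by_cases hm : m ∈ T
    · obtain ⟨A, s1, s2, s3, z, r, h⟩ := dt_of hY1 hδ1 (by omega) hR1 hu0 (hT m hm).1
      exact ⟨A, s1, s2, s3, z, r, fun _ => h⟩
    · exact ⟨0, 0, 0, 0, 0, 0, fun h => absurd h hm⟩
  choose A s1 s2 s3 z r hD using hex
  set K := 2 * (E + N * R1) + E with hK
  -- the fibres
  have hfib : ∀ a ∈ T.image A, (((T.filter fun m => A m = a).card : ℕ) : ℝ) ≤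
      1 + ((Y ^ (E + N * R1 + 1) : ℕ) : ℝ) ^ ε2 := by
    intro a ha
    set S := T.filter fun m => A m = a with hS
    have hsplit : S.card = (S.filter fun m => m.2.2 ≤ Y ^ K).card +
        (S.filter fun m => ¬ m.2.2 ≤ Y ^ K).card :=
      (Finset.card_filter_add_card_filter_not (s := S) (fun m => m.2.2 ≤ Y ^ K)).symm
    have hsm : (S.filter fun m => m.2.2 ≤ Y ^ K).card ≤ 1 := by
      rw [Finset.card_le_one]
      intro m hm m' hm'
      rw [Finset.mem_filter, hS, Finset.mem_filter] at hm hm'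
      obtain ⟨⟨hmT, hma⟩, hmK⟩ := hm
      obtain ⟨⟨hmT', hma'⟩, hmK'⟩ := hm'
      have d1 := hD m hmT
      have d2 := hD m' hmT'
      rw [hma] at d1
      rw [hma'] at d2
      obtain ⟨t1, o1⟩ := hT m hmT
      have hKR : Y ^ K < Y ^ R := Nat.pow_lt_pow_right hY (by omega)
      have hbig : Y ^ R ≤ m.2.1 := by
        rcases o1 with o1 | ⟨-, o1⟩
        · exact o1
        · omega
      have hum : u 0 = -1 := by
        rcases hu.1 with h | h
        · exfalso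
          have e1 := t1.eq
          rw [h, hu.2, one_mul, one_mul] at e1
          have : m.1 + m.2.1 = m.2.2 := by exact_mod_cast e1
          omega
        · exact h
      have hb : Y ^ (K + 2 * (E + N * R1)) ≤ m.1 := by
        have e1 := t1.eq
        rw [hum, hu.2, one_mul] at e1
        have e2 : m.2.1 = m.1 + m.2.2 := by
          have : (m.2.1 : ℤ) = m.1 + m.2.2 := by linarith
          exact_mod_cast this
        have e3 : Y ^ (K + 2 * (E + N * R1)) + Y ^ K ≤ Y ^ R := by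
          calc Y ^ (K + 2 * (E + N * R1)) + Y ^ K ≤
                Y ^ (K + 2 * (E + N * R1)) + Y ^ (K + 2 * (E + N * R1)) :=
                Nat.add_le_add_left (Nat.pow_le_pow_right hY1 (by omega)) _
            _ = 2 * Y ^ (K + 2 * (E + N * R1)) := by ring
            _ ≤ Y * Y ^ (K + 2 * (E + N * R1)) := Nat.mul_le_mul_right _ hY
            _ = Y ^ (K + 2 * (E + N * R1) + 1) := by rw [pow_succ]; ring
            _ ≤ Y ^ R := Nat.pow_le_pow_right hY1 hR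
        omega
      exact small_eq hum hu.2 t1 (hT m' hmT').1 d1 d2 hmK hmK' hb
    have hbg : (((S.filter fun m => ¬ m.2.2 ≤ Y ^ K).card : ℕ) : ℝ) ≤
        ((Y ^ (E + N * R1 + 1) : ℕ) : ℝ) ^ ε2 := by
      set S' := S.filter fun m => ¬ m.2.2 ≤ Y ^ K with hS'
      have hmem : ∀ m ∈ S', m ∈ T ∧ A m = a ∧ Y ^ K < m.2.2 ∧ Y ^ (2 * (E + N * R1)) < z m ^ r m ∧
          2 ≤ z m := by
        intro m hm
        rw [hS', Finset.mem_filter, hS, Finset.mem_filter] at hm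
        obtain ⟨⟨hmT, hma⟩, hmK⟩ := hm
        push Not at hmK
        have d1 := hD m hmT
        have hw : Y ^ (2 * (E + N * R1)) < z m ^ r m := by
          by_contra hcon
          push Not at hcon
          have h1 : m.2.2 ≤ Y ^ K := by
            rw [d1.h3, hK, Nat.add_comm, pow_add]
            exact Nat.mul_le_mul d1.b3 hcon
          omega
        refine ⟨hmT, hma, hmK, hw, ?_⟩
        by_contra hcon
        have h2 : z m ^ r m ≤ 1 := Nat.pow_le_one_iff (by have := d1.hr; omega) |>.2 (by omega)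
        have h3 : 1 ≤ Y ^ (2 * (E + N * R1)) := Nat.one_le_pow _ _ hY1
        omega
      have hinj : Set.InjOn (fun m => ((z m ^ r m : ℕ) : ℤ)) (S' : Set (ℕ × ℕ × ℕ)) := by
        intro m hm m' hm' he
        obtain ⟨hmT, hma, hmK, hw, -⟩ := hmem m hm
        obtain ⟨hmT', hma', hmK', hw', -⟩ := hmem m' hm'
        have d1 := hD m hmT
        have d2 := hD m' hmT'
        rw [hma] at d1
        rw [hma'] at d2
        have he'' : ((z m ^ r m : ℕ) : ℤ) = ((z m' ^ r m' : ℕ) : ℤ) := he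
        have he' : z m ^ r m = z m' ^ r m' := by exact_mod_cast he''
        exact big_eq hab (hT m hmT).1 (hT m' hmT').1 d1 d2 he' hw
      rw [← Finset.card_image_of_injOn hinj]
      have hYY : Y ≤ Y ^ (E + N * R1 + 1) := Nat.le_self_pow (by omega) Y
      -- the size of the coefficients
      rcases S'.eq_empty_or_nonempty with hemp | ⟨m0, hm0⟩
      · rw [hemp, Finset.image_empty, Finset.card_empty, Nat.cast_zero]
        positivity
      obtain ⟨hm0T, hm0a, -, -, -⟩ := hmem m0 hm0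
      have d0 := hD m0 hm0T
      rw [hm0a] at d0
      have t0 := (hT m0 hm0T).1
      have hexp : Real.exp ((Y : ℝ) ^ δ) ≤
          Real.exp (((Y ^ (E + N * R1 + 1) : ℕ) : ℝ) ^ δ2) := by
        refine (exp_mono hY1 hδ2).trans (Real.exp_le_exp.2 ?_)
        exact Real.rpow_le_rpow (Nat.cast_nonneg _) (by exact_mod_cast hYY) hδ2'.le
      have ha0 : (a 0 : ℝ) ≤ Real.exp (((Y ^ (E + N * R1 + 1) : ℕ) : ℝ) ^ δ2) := by
        refine le_trans ?_ (t0.l1.trans hexp)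
        have h1 : a 0 ≤ m0.1 := by
          rw [d0.h1]
          refine Nat.le_mul_of_pos_left _ ?_
          have := t0.p1
          rw [d0.h1] at this
          exact Nat.pos_of_mul_pos_right this
        exact_mod_cast h1
      have ha1 : (a 1 : ℝ) ≤ Real.exp (((Y ^ (E + N * R1 + 1) : ℕ) : ℝ) ^ δ2) := by
        refine le_trans ?_ (t0.l2.trans hexp)
        have h1 : a 1 ≤ m0.2.1 := by
          rw [d0.h2]
          refine Nat.le_mul_of_pos_left _ ?_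
          have := t0.p2
          rw [d0.h2] at this
          exact Nat.pos_of_mul_pos_right this
        exact_mod_cast h1
      refine hpv 1 (C (u 0 * a 0) * X 0 + C (u 1 * a 1) * X 1) le_rfl ?_ ?_ ?_ _ ?_
      · rw [Nat.cast_one]
        exact Real.one_le_rpow (by exact_mod_cast Nat.one_le_pow _ _ hY1) hδ2'.le
      · refine (totalDegree_add _ _).trans (max_le ?_ ?_)
        · refine (totalDegree_mul _ _).trans ?_
          rw [totalDegree_C, totalDegree_X]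
        · refine (totalDegree_mul _ _).trans ?_
          rw [totalDegree_C, totalDegree_X]
      · intro k
        rw [coeff_add, coeff_C_mul, coeff_C_mul, coeff_X, coeff_X]
        have hexp0 := (Real.exp_pos (((Y ^ (E + N * R1 + 1) : ℕ) : ℝ) ^ δ2)).le
        by_cases hk0 : Finsupp.single (0 : Fin 2) 1 = k
        · have hk1 : Finsupp.single (1 : Fin 2) 1 ≠ k := by
            intro hk1
            rw [← hk0] at hk1
            have := DFunLike.congr_fun hk1 (0 : Fin 2)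
            simp at this
          rw [if_pos hk0, if_neg hk1, mul_one, mul_zero, add_zero, abs_mul, hab, one_mul,
            Nat.abs_cast]
          exact_mod_cast ha0
        · rw [if_neg hk0, mul_zero, zero_add]
          by_cases hk1 : Finsupp.single (1 : Fin 2) 1 = k
          · rw [if_pos hk1, mul_one, hu.2, one_mul, Nat.abs_cast]
            exact_mod_cast ha1
          · rw [if_neg hk1, mul_zero, abs_zero, Int.cast_zero]
            exact hexp0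
      · intro w hw
        obtain ⟨m, hm, rfl⟩ := Finset.mem_image.1 hw
        obtain ⟨hmT, hma, hmK, hmw, hmz⟩ := hmem m hm
        have d1 := hD m hmT
        rw [hma] at d1
        have t1 := (hT m hmT).1
        refine ⟨![(s1 m : ℤ), (s2 m : ℤ)], (s3 m : ℤ), (z m : ℤ), r m, ?_, ?_, ?_, ?_, ?_, ?_, ?_⟩
        · intro j
          fin_cases j
          · show |(s1 m : ℤ)| ≤ _
            rw [Nat.abs_cast]
            exact_mod_cast d1.b1.trans (Nat.pow_le_pow_right hY1 (by omega))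
          · show |(s2 m : ℤ)| ≤ _
            rw [Nat.abs_cast]
            exact_mod_cast d1.b2.trans (Nat.pow_le_pow_right hY1 (by omega))
        · have := t1.p3
          rw [d1.h3] at this
          exact_mod_cast (Nat.pos_of_mul_pos_right this).ne'
        · rw [pow_one, Nat.abs_cast]
          exact_mod_cast d1.b3.trans (Nat.pow_le_pow_right hY1 (by omega))
        · rw [Nat.abs_cast]
          exact_mod_cast hmz
        · rw [mul_one]
          exact hR2.trans d1.hr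
        · push_cast
          rfl
        · have e1 := t1.eq
          rw [d1.h1, d1.h2, d1.h3] at e1
          simp only [eval_add, eval_mul, eval_C, eval_X, Matrix.cons_val_zero,
            Matrix.cons_val_one]
          push_cast at e1 ⊢
          linear_combination e1
    rw [hsplit, Nat.cast_add]
    have hsm' : (((S.filter fun m => m.2.2 ≤ Y ^ K).card : ℕ) : ℝ) ≤ 1 := by exact_mod_cast hsm
    linarith
  have himg : ((T.image A).card : ℝ) ≤ (Y : ℝ) ^ ε1 := by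
    refine hlp _ fun a ha => ?_
    obtain ⟨m, hm, rfl⟩ := Finset.mem_image.1 ha
    exact (hD m hm).lh
  have hc := Finset.card_eq_sum_card_image A T
  rw [hc]
  push_cast
  calc ∑ a ∈ T.image A, (((T.filter fun m => A m = a).card : ℕ) : ℝ)
      ≤ ∑ _a ∈ T.image A, (1 + ((Y ^ (E + N * R1 + 1) : ℕ) : ℝ) ^ ε2) :=
        Finset.sum_le_sum hfib
    _ = ((T.image A).card : ℝ) * (1 + ((Y ^ (E + N * R1 + 1) : ℕ) : ℝ) ^ ε2) := by
        rw [Finset.sum_const, nsmul_eq_mul]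
    _ ≤ (Y : ℝ) ^ ε1 * (1 + ((Y ^ (E + N * R1 + 1) : ℕ) : ℝ) ^ ε2) := by
        refine mul_le_mul_of_nonneg_right himg (by positivity)
    _ = _ := by push_cast; rfl

/-- HB/19: few abc triples -/
theorem abc (h1 : S_lp) (h2 : S_pv) : S_abc := by
  classical
  intro N E ε hε
  obtain ⟨R1, δ1, hδ1, hlp⟩ := h1 2 N E (ε / 4) (by positivity)
  obtain ⟨R2, δ2, hδ2, hpv⟩ := h2 2 1 (ε / (4 * ((E + N * R1 + 1 : ℕ) : ℝ))) (by positivity)
  set δ := min (min δ1 δ2) 1 with hδ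
  have hδpos : 0 < δ := lt_min (lt_min hδ1 hδ2) one_pos
  set R := R1 + R2 + ((2 * (E + N * R1) + E) + 2 * (E + N * R1) + 1) +
    ⌈2 * (6 : ℝ) ^ (2 / ε)⌉₊ with hR
  refine ⟨R, δ, hδpos, fun Y hY T hT => ?_⟩
  rcases T.eq_empty_or_nonempty with hemp | ⟨t0, ht0⟩
  · rw [hemp, Finset.card_empty, Nat.cast_zero]
    positivity
  rcases eq_or_lt_of_le hY with hY1 | hY2
  · -- `Y = 1`
    have hsub : T ⊆ {(1, 1, 2)} := by
      intro t ht
      obtain ⟨k1, k2, k3, k4, -, -, k5⟩ := hT t ht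
      have hlop : ∀ a b c : ℕ, 0 < a → 0 < b → Lop N E R Y a b c → a = 1 ∧ b = 1 := by
        rintro a b c ha hb ⟨x, e₁, e₂, s₁, s₂, s₃, z, r, hx, b1, b2, -, -, rfl, rfl, -⟩
        have hx1 : ∀ j, x j = 1 := fun j => by
          have := hx j
          omega
        have q1 := Nat.pos_of_mul_pos_right ha
        have q2 := Nat.pos_of_mul_pos_right hb
        rw [← hY1, one_pow] at b1 b2
        simp only [hx1, one_pow, Finset.prod_const_one, mul_one]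
        omega
      rw [Finset.mem_singleton]
      rcases k5 with k5 | k5 | k5
      · obtain ⟨g1, g2⟩ := hlop _ _ _ k1 k2 k5
        rw [g1, g2] at k4
        exact Prod.ext g1 (Prod.ext g2 k4.symm)
      · obtain ⟨g1, g2⟩ := hlop _ _ _ k1 (by omega) k5
        omega
      · obtain ⟨g1, g2⟩ := hlop _ _ _ k2 (by omega) k5
        omega
    have hc : T.card ≤ 1 := by
      calc T.card ≤ ({(1, 1, 2)} : Finset (ℕ × ℕ × ℕ)).card := Finset.card_le_card hsub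
        _ = 1 := Finset.card_singleton _
    rw [← hY1, Nat.cast_one, Real.one_rpow]
    exact_mod_cast hc
  have hY2' : 2 ≤ Y := hY2
  have hYr : (1 : ℝ) ≤ Y := by exact_mod_cast hY
  have hYr0 : (0 : ℝ) < Y := by linarith
  have hδ1' : δ ≤ δ1 := (min_le_left _ _).trans (min_le_left _ _)
  have hδ2' : δ ≤ δ2 := (min_le_left _ _).trans (min_le_right _ _)
  have hδ3 : δ ≤ 1 := min_le_right _ _
  -- `Y` is large
  have hlarge : (6 : ℝ) ≤ (Y : ℝ) ^ (ε / 2) := by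
    obtain ⟨-, -, -, -, k1, k2, -⟩ := hT t0 ht0
    have a1 : ((2 : ℝ)) ^ R ≤ Real.exp (Y : ℝ) := by
      calc (2 : ℝ) ^ R ≤ (Y : ℝ) ^ R := pow_le_pow_left₀ (by norm_num) (by exact_mod_cast hY2') R
        _ ≤ (t0.2.2 : ℝ) := by exact_mod_cast k1
        _ ≤ Real.exp ((Y : ℝ) ^ δ) := k2
        _ ≤ Real.exp (Y : ℝ) := by
            refine Real.exp_le_exp.2 ?_
            calc (Y : ℝ) ^ δ ≤ (Y : ℝ) ^ (1 : ℝ) := Real.rpow_le_rpow_of_exponent_le hYr hδ3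
              _ = Y := Real.rpow_one _
    have a2 : (R : ℝ) * Real.log 2 ≤ Y := by
      have := Real.log_le_log (by positivity) a1
      rwa [Real.log_pow, Real.log_exp] at this
    have a3 : (R : ℝ) / 2 ≤ Y := by
      have := Real.log_two_gt_d9
      have hR0 : (0 : ℝ) ≤ R := Nat.cast_nonneg _
      nlinarith
    have a4 : 2 * (6 : ℝ) ^ (2 / ε) ≤ (R : ℝ) := by
      refine (Nat.le_ceil _).trans ?_
      exact_mod_cast (by rw [hR]; omega : ⌈2 * (6 : ℝ) ^ (2 / ε)⌉₊ ≤ R)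
    have a5 : (6 : ℝ) ^ (2 / ε) ≤ Y := by linarith
    calc (6 : ℝ) = ((6 : ℝ) ^ (2 / ε)) ^ (ε / 2) := by
          rw [← Real.rpow_mul (by norm_num)]
          have : 2 / ε * (ε / 2) = 1 := by field_simp
          rw [this, Real.rpow_one]
      _ ≤ (Y : ℝ) ^ (ε / 2) := Real.rpow_le_rpow (by positivity) a5 (by positivity)
  -- the three types
  have hYE1 : 1 ≤ Y ^ (E + N * R1 + 1) := Nat.one_le_pow _ _ hY
  have hexp2 : ((Y ^ (E + N * R1 + 1) : ℕ) : ℝ) ^ (ε / (4 * ((E + N * R1 + 1 : ℕ) : ℝ))) =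
      (Y : ℝ) ^ (ε / 4) := by
    rw [Nat.cast_pow, ← Real.rpow_natCast, ← Real.rpow_mul hYr0.le]
    congr 1
    have : ((E + N * R1 + 1 : ℕ) : ℝ) ≠ 0 := by positivity
    field_simp
  have hcount : ∀ (u : Fin 2 → ℤ), ((u 0 = 1 ∨ u 0 = -1) ∧ u 1 = 1) →
      ∀ S : Finset (ℕ × ℕ × ℕ),
      (∀ m ∈ S, Tp N E R δ Y u m ∧ (Y ^ R ≤ m.2.1 ∨ (u 0 = 1 ∧ Y ^ R ≤ m.2.2))) →
      (S.card : ℝ) ≤ 2 * (Y : ℝ) ^ (ε / 2) := by
    intro u hu S hS
    have hone : ∀ i, u i ≠ 0 ∧ ((|u i| : ℤ) : ℝ) ≤ Real.exp ((Y : ℝ) ^ δ1) := by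
      intro i
      have h1 : |u i| = 1 := by
        fin_cases i
        · show |u 0| = 1
          rcases hu.1 with h | h <;> rw [h] <;> norm_num
        · show |u 1| = 1
          rw [hu.2]; norm_num
      refine ⟨fun h => ?_, ?_⟩
      · rw [h, abs_zero] at h1
        exact zero_ne_one h1
      · rw [h1, Int.cast_one]
        exact Real.one_le_exp (by positivity)
    have := count_tp (ε1 := ε / 4) (ε2 := ε / (4 * ((E + N * R1 + 1 : ℕ) : ℝ))) hY2' hu hδ1' hδ2'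
      hδ2 (by omega : R1 ≤ R) (by omega : R2 ≤ R) (by omega)
      (fun T hT => hlp Y hY u 1 hone one_ne_zero
        (by rw [abs_one, Int.cast_one]; exact Real.one_le_exp (by positivity)) T hT)
      (fun D F a1 a2 a3 a4 T hT => hpv _ hYE1 D F a1 a2 a3 a4 T hT) S hS
    rw [hexp2] at this
    have h1 : 1 ≤ (Y : ℝ) ^ (ε / 4) := Real.one_le_rpow hYr (by positivity)
    calc (S.card : ℝ) ≤ (Y : ℝ) ^ (ε / 4) * (1 + (Y : ℝ) ^ (ε / 4)) := this
      _ ≤ (Y : ℝ) ^ (ε / 4) * (2 * (Y : ℝ) ^ (ε / 4)) := by gcongr; linarith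
      _ = 2 * ((Y : ℝ) ^ (ε / 4) * (Y : ℝ) ^ (ε / 4)) := by ring
      _ = 2 * (Y : ℝ) ^ (ε / 2) := by
          rw [← Real.rpow_add hYr0]
          congr 2
          ring
  set T1 := T.filter fun t => Lop N E R Y t.1 t.2.1 t.2.2 with hT1
  set T2 := T.filter fun t => Lop N E R Y t.1 t.2.2 t.2.1 with hT2
  set T3 := T.filter fun t => Lop N E R Y t.2.1 t.2.2 t.1 with hT3
  have hcov : T.card ≤ T1.card + T2.card + T3.card := by
    have hsub : T ⊆ T1 ∪ T2 ∪ T3 := by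
      intro t ht
      obtain ⟨-, -, -, -, -, -, k5⟩ := hT t ht
      rw [Finset.mem_union, Finset.mem_union, hT1, hT2, hT3, Finset.mem_filter, Finset.mem_filter,
        Finset.mem_filter]
      rcases k5 with k5 | k5 | k5
      · exact Or.inl (Or.inl ⟨ht, k5⟩)
      · exact Or.inl (Or.inr ⟨ht, k5⟩)
      · exact Or.inr ⟨ht, k5⟩
    refine (Finset.card_le_card hsub).trans ((Finset.card_union_le _ _).trans ?_)
    exact Nat.add_le_add_right (Finset.card_union_le _ _) _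
  have c1 : (T1.card : ℝ) ≤ 2 * (Y : ℝ) ^ (ε / 2) := by
    refine hcount ![1, 1] ⟨Or.inl rfl, rfl⟩ T1 fun m hm => ?_
    rw [hT1, Finset.mem_filter] at hm
    obtain ⟨k1, k2, k3, k4, k5, k6, -⟩ := hT m hm.1
    have q1 : (m.1 : ℝ) ≤ m.2.2 := by exact_mod_cast (by omega : m.1 ≤ m.2.2)
    have q2 : (m.2.1 : ℝ) ≤ m.2.2 := by exact_mod_cast (by omega : m.2.1 ≤ m.2.2)
    refine ⟨⟨k1, k2, by omega, k3, ?_, ?_, q1.trans k6, q2.trans k6, k6, hm.2⟩,
      Or.inr ⟨rfl, k5⟩⟩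
    · rw [← k4]
      simpa using k3
    · show (1 : ℤ) * m.1 + 1 * m.2.1 = m.2.2
      rw [← k4]
      push_cast
      ring
  have c2 : (T2.card : ℝ) ≤ 2 * (Y : ℝ) ^ (ε / 2) := by
    have hinj : Function.Injective (fun t : ℕ × ℕ × ℕ => (t.1, t.2.2, t.2.1)) := by
      rintro ⟨a, b, c⟩ ⟨a', b', c'⟩ h
      simp only [Prod.mk.injEq] at h
      obtain ⟨rfl, rfl, rfl⟩ := h
      rfl
    rw [← Finset.card_image_of_injective T2 hinj]
    refine hcount ![-1, 1] ⟨Or.inr rfl, rfl⟩ _ fun m hm => ?_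
    obtain ⟨t, ht, rfl⟩ := Finset.mem_image.1 hm
    rw [hT2, Finset.mem_filter] at ht
    obtain ⟨k1, k2, k3, k4, k5, k6, -⟩ := hT t ht.1
    have q1 : (t.1 : ℝ) ≤ t.2.2 := by exact_mod_cast (by omega : t.1 ≤ t.2.2)
    have q2 : (t.2.1 : ℝ) ≤ t.2.2 := by exact_mod_cast (by omega : t.2.1 ≤ t.2.2)
    refine ⟨⟨k1, by show 0 < t.2.2; omega, k2, ?_, k3, ?_, q1.trans k6, k6, q2.trans k6, ht.2⟩,
      Or.inl k5⟩
    · show Nat.Coprime t.1 t.2.2
      rw [← k4]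
      simpa using k3
    · show (-1 : ℤ) * t.1 + 1 * t.2.2 = t.2.1
      rw [← k4]
      push_cast
      ring
  have c3 : (T3.card : ℝ) ≤ 2 * (Y : ℝ) ^ (ε / 2) := by
    have hinj : Function.Injective (fun t : ℕ × ℕ × ℕ => (t.2.1, t.2.2, t.1)) := by
      rintro ⟨a, b, c⟩ ⟨a', b', c'⟩ h
      simp only [Prod.mk.injEq] at h
      obtain ⟨rfl, rfl, rfl⟩ := h
      rfl
    rw [← Finset.card_image_of_injective T3 hinj]
    refine hcount ![-1, 1] ⟨Or.inr rfl, rfl⟩ _ fun m hm => ?_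
    obtain ⟨t, ht, rfl⟩ := Finset.mem_image.1 hm
    rw [hT3, Finset.mem_filter] at ht
    obtain ⟨k1, k2, k3, k4, k5, k6, -⟩ := hT t ht.1
    have q1 : (t.1 : ℝ) ≤ t.2.2 := by exact_mod_cast (by omega : t.1 ≤ t.2.2)
    have q2 : (t.2.1 : ℝ) ≤ t.2.2 := by exact_mod_cast (by omega : t.2.1 ≤ t.2.2)
    refine ⟨⟨k2, by show 0 < t.2.2; omega, k1, ?_, k3.symm, ?_, q2.trans k6, k6, q1.trans k6,
      ht.2⟩, Or.inl k5⟩
    · show Nat.Coprime t.2.1 t.2.2
      rw [← k4]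
      simpa using k3.symm
    · show (-1 : ℤ) * t.2.1 + 1 * t.2.2 = t.1
      rw [← k4]
      push_cast
      ring
  have hcov' : (T.card : ℝ) ≤ T1.card + T2.card + T3.card := by exact_mod_cast hcov
  calc (T.card : ℝ) ≤ 6 * (Y : ℝ) ^ (ε / 2) := by linarith
    _ ≤ (Y : ℝ) ^ (ε / 2) * (Y : ℝ) ^ (ε / 2) := by gcongr
    _ = (Y : ℝ) ^ ε := by
        rw [← Real.rpow_add hYr0]
        congr 1
        ring

end Pool.Agent.N415.HB
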